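import Pool.Agent.W108.TW.Mellin

/-!
# The Mellin transform of a theta-like series with an explicit sign

If `Φ(t) = ∑ b(n) e^(-2π n t / R)` satisfies `Φ(1/t) = w t^k Φ(t)`, there is an entire `F` with
`F(s) = ∑ b(n) n^(-(s + (k-1)/2))` for large `Re s`, and `F(1/2) = 0` if `w = -1`.
-/

set_option autoImplicit false

open Complex Filter Topology Set MeasureTheory

namespace Pool.Agent.K1H79.RN

open Pool.Agent.W108.TW

theorem mellin_sign (k : ℤ) (hk : 1 ≤ k) (R : ℝ) (hR : 0 < R) (b : ℕ → ℂ) (m C : ℝ)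
    (hb0 : b 0 = 0) (hm : 0 ≤ m) (hb : ∀ n : ℕ, 1 ≤ n → ‖b n‖ ≤ C * (n : ℝ) ^ m) (w : ℂ)
    (hw : w ≠ 0)
    (hfe : ∀ t : ℝ, 0 < t → ∑' n : ℕ, b n * (Real.exp (-(2 * Real.pi * n / R) / t) : ℂ) =
      w * (t : ℂ) ^ k * ∑' n : ℕ, b n * (Real.exp (-(2 * Real.pi * n / R) * t) : ℂ)) :
    ∃ F : ℂ → ℂ, Differentiable ℂ F ∧ (∀ s : ℂ, m + 2 < s.re →
      F s = ∑' n : ℕ, b n * (n : ℂ) ^ (-(s + ((k : ℂ) - 1) / 2))) ∧
      (w = -1 → F (1 / 2) = 0) := by
  set c : ℝ := 2 * Real.pi / R with hc'
  have hc : 0 < c := by have := Real.pi_pos; positivity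
  have hkr : (1 : ℝ) ≤ k := by exact_mod_cast hk
  let P : WeakFEPair ℂ :=
    { f := Th b c
      g := Th b c
      k := (k : ℝ)
      ε := w
      f₀ := 0
      g₀ := 0
      hf_int := (continuousOn_Th hb0 hb hc).locallyIntegrableOn measurableSet_Ioi
      hg_int := (continuousOn_Th hb0 hb hc).locallyIntegrableOn measurableSet_Ioi
      hk := by linarith
      hε := hw
      h_feq := by
        intro x (hx : 0 < x)
        have h := hfe x hx
        rw [smul_eq_mul, Real.rpow_intCast, Complex.ofReal_zpow]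
        rw [Th, Th]
        have e1 : ∀ n : ℕ, -(c * n) * (1 / x) = -(2 * Real.pi * n / R) / x := by
          intro n; rw [hc']; ring
        have e2 : ∀ n : ℕ, -(c * n) * x = -(2 * Real.pi * n / R) * x := by
          intro n; rw [hc']; ring
        simp only [e1, e2]
        exact h
      hf_top := Th_isBigO hb0 hb hc
      hg_top := Th_isBigO hb0 hb hc }
  have hP : IsStrongFEPair P := ⟨rfl, rfl⟩
  have hΛf : P.Λ = mellin (Th b c) := hP.Λ_eq
  have hΛg : P.symm.Λ = mellin (Th b c) := hP.symm_Λ_eq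
  have hcC : (c : ℂ) ≠ 0 := by exact_mod_cast hc.ne'
  set κ : ℂ := ((k : ℂ) - 1) / 2 with hκ
  have hκr : κ = (((k : ℝ) - 1) / 2 : ℝ) := by rw [hκ]; push_cast; ring
  let F : ℂ → ℂ := fun s => P.Λ (s + κ) * (c : ℂ) ^ (s + κ) * (Complex.Gamma (s + κ))⁻¹
  refine ⟨F, ?_, ?_, ?_⟩
  · -- differentiable
    have h1 : Differentiable ℂ (fun s : ℂ => P.Λ (s + κ)) :=
      hP.differentiable_Λ.comp (differentiable_id.add_const κ)
    have h2 : Differentiable ℂ (fun s : ℂ => (c : ℂ) ^ (s + κ)) := by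
      intro s
      exact (DifferentiableAt.const_cpow (by fun_prop) (Or.inl hcC))
    have h3 : Differentiable ℂ (fun s : ℂ => (Complex.Gamma (s + κ))⁻¹) :=
      Complex.differentiable_one_div_Gamma.comp (differentiable_id.add_const κ)
    exact (h1.mul h2).mul h3
  · -- Dirichlet series
    intro s hs
    set S : ℂ := s + κ with hS
    have hSre : S.re = s.re + ((k : ℝ) - 1) / 2 := by rw [hS, hκr]; simp
    have hSm : m + 2 < S.re := by rw [hSre]; linarith
    have hSpos : 0 < S.re := by linarith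
    have hG : Complex.Gamma S ≠ 0 := Complex.Gamma_ne_zero_of_re_pos hSpos
    have h1 := hasSum_mellin (a := b) (p := fun n : ℕ => c * n) (F := Th b c) (s := S)
      (by
        intro n
        rcases Nat.eq_zero_or_pos n with rfl | hn
        · exact Or.inl hb0
        · right
          have : (0 : ℝ) < n := by exact_mod_cast hn
          positivity) hSpos
      (by
        intro t (ht : 0 < t)
        exact (summable_term hb0 hb hc ht).hasSum)
      (by
        have h2 : Summable (fun n : ℕ => |C| / c ^ S.re * (n : ℝ) ^ (m - S.re)) :=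
          (Real.summable_nat_rpow.mpr (by linarith)).mul_left _
        refine Summable.of_nonneg_of_le (fun n => by positivity) (fun n => ?_) h2
        rcases Nat.eq_zero_or_pos n with rfl | hn
        · rw [hb0, norm_zero, zero_div]; positivity
        · have hn' : (0 : ℝ) < n := by exact_mod_cast hn
          have h3 : ‖b n‖ ≤ |C| * (n : ℝ) ^ m :=
            (hb n hn).trans (mul_le_mul_of_nonneg_right (le_abs_self C) (by positivity))
          rw [Real.mul_rpow hc.le hn'.le, Real.rpow_sub hn', div_mul_div_comm]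
          exact div_le_div_of_nonneg_right h3 (by positivity))
    have h2 := h1.tsum_eq
    have h3 : F s = (∑' n : ℕ, Complex.Gamma S * b n / ((c * n : ℝ) : ℂ) ^ S) * (c : ℂ) ^ S *
        (Complex.Gamma S)⁻¹ := by
      simp only [F]
      rw [← hS, hΛf, ← h2]
    have hcs : (c : ℂ) ^ S ≠ 0 := by
      rw [Complex.cpow_def_of_ne_zero hcC]; exact Complex.exp_ne_zero _
    rw [h3, ← tsum_mul_right, ← tsum_mul_right]
    refine tsum_congr (fun n => ?_)
    rcases Nat.eq_zero_or_pos n with rfl | hn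
    · rw [hb0]; simp
    · have hn' : (n : ℂ) ≠ 0 := by exact_mod_cast hn.ne'
      have hnS : (n : ℂ) ^ S ≠ 0 := by
        rw [Complex.cpow_def_of_ne_zero hn']; exact Complex.exp_ne_zero _
      rw [Complex.ofReal_mul, Complex.mul_cpow_ofReal_nonneg hc.le (Nat.cast_nonneg n),
        Complex.cpow_neg]
      simp only [Complex.ofReal_natCast]
      field_simp
  · -- the centre
    intro hw1
    have h := P.functional_equation ((k : ℂ) / 2)
    have e1 : (P.k : ℂ) - (k : ℂ) / 2 = (k : ℂ) / 2 := by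
      have : (P.k : ℂ) = (k : ℂ) := by simp [P]
      rw [this]; ring
    have e2 : P.ε = -1 := hw1
    rw [e1, e2, hΛg, ← hΛf, smul_eq_mul] at h
    have h0 : P.Λ ((k : ℂ) / 2) = 0 := by
      have h1 : (2 : ℂ) * P.Λ ((k : ℂ) / 2) = 0 := by linear_combination h
      rcases mul_eq_zero.1 h1 with h2 | h2
      · exact absurd h2 two_ne_zero
      · exact h2
    show P.Λ (1 / 2 + κ) * (c : ℂ) ^ (1 / 2 + κ) * (Complex.Gamma (1 / 2 + κ))⁻¹ = 0
    have e3 : (1 : ℂ) / 2 + κ = (k : ℂ) / 2 := by rw [hκ]; ring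
    rw [e3, h0, zero_mul, zero_mul]

end Pool.Agent.K1H79.RN
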