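import Pool.Agent.W440.TW.Twist

/-!
# The theta relation for the twists by a real primitive character, with the explicit sign
-/

set_option autoImplicit false

open Complex Filter Topology Set UpperHalfPlane MatrixGroups CongruenceSubgroup ZMod

namespace Pool.Agent.K1H79.RN

open Pool.Agent.W440.TW

/-- the theta series of the twist -/
noncomputable def th {N : ℕ} {k : ℤ} (f : CuspForm (Gamma0 N : Subgroup (GL (Fin 2) ℝ)) k) {q : ℕ}
    (χ : DirichletCharacter ℂ q) (R t : ℝ) : ℂ :=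
  ∑' n : ℕ, χ (n : ZMod q) * (qExpansion 1 f).coeff n *
      (Real.exp (-(2 * Real.pi * n / R) * t) : ℂ)

theorem real_inv {q : ℕ} (χ : DirichletCharacter ℂ q) (h : χ ^ 2 = 1) : χ⁻¹ = χ := by
  rw [inv_eq_iff_mul_eq_one, ← sq, h]

/-- the relation, conductor prime to the level -/
theorem theta_coprime {N : ℕ} [NeZero N] {k : ℤ}
    (f : CuspForm (Gamma0 N : Subgroup (GL (Fin 2) ℝ)) k) (ε : ℝ) (hf : W388.IsNewf N k f ε)
    (q : ℕ) [NeZero q] (χ : DirichletCharacter ℂ q) (hχ : χ.IsPrimitive) (h2 : χ ^ 2 = 1)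
    (hco : Nat.Coprime q N) (t : ℝ) (ht : 0 < t) :
    ∑' n : ℕ, χ (n : ZMod q) * (qExpansion 1 f).coeff n *
      (Real.exp (-(2 * Real.pi * n / (Real.sqrt N * q)) / t) : ℂ) =
    ((ε : ℂ) * χ (-(N : ZMod q))) * (t : ℂ) ^ k *
      ∑' n : ℕ, χ (n : ZMod q) * (qExpansion 1 f).coeff n *
      (Real.exp (-(2 * Real.pi * n / (Real.sqrt N * q)) * t) : ℂ) := by
  have hq : (0 : ℝ) < q := Nat.cast_pos.2 (Nat.pos_of_ne_zero (NeZero.ne q))
  have hN : (0 : ℝ) < N := Nat.cast_pos.2 (Nat.pos_of_ne_zero (NeZero.ne N))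
  have hsN : 0 < Real.sqrt N := Real.sqrt_pos.2 hN
  have hinv := real_inv χ h2
  set g := gaussSum χ (stdAddChar (N := q)) with hg
  have hg0 : g ≠ 0 := gauss_ne_zero χ hχ
  let n0 : (ZMod q)ˣ := ZMod.unitOfCoprime N hco.symm
  have h1 : 0 < (1 / (Real.sqrt N * t)) / q := by positivity
  have h2 : 0 < (t / Real.sqrt N) / q := by positivity
  have s1 := hasSum_twist f χ hχ (1 / (Real.sqrt N * t)) h1
  have s2 := hasSum_twist f χ hχ (t / Real.sqrt N) h2
  rw [← hg] at s1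
  rw [← hg] at s2
  have key : (∑ u : (ZMod q)ˣ, χ (u : ZMod q) *
        f (pt ((((u : ZMod q).val : ℤ) : ℝ) / q) ((1 / (Real.sqrt N * t)) / q) h1)) =
      (ε : ℂ) * (t : ℂ) ^ k * χ ((-n0 : (ZMod q)ˣ) : ZMod q) *
      (∑ u : (ZMod q)ˣ, χ (u : ZMod q) *
        f (pt ((((u : ZMod q).val : ℤ) : ℝ) / q) ((t / Real.sqrt N) / q) h2)) := by
    rw [← Equiv.sum_comp ((Equiv.mulLeft (-n0)).trans (Equiv.inv (ZMod q)ˣ))
      (fun u : (ZMod q)ˣ => χ (u : ZMod q) *
        f (pt ((((u : ZMod q).val : ℤ) : ℝ) / q) ((t / Real.sqrt N) / q) h2)), Finset.mul_sum]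
    apply Finset.sum_congr rfl
    intro u _
    simp only [Equiv.trans_apply, Equiv.coe_mulLeft, Equiv.inv_apply]
    set v : (ZMod q)ˣ := (-n0 * u)⁻¹ with hv
    have hdvd : (q : ℤ) ∣ (N * ((u : ZMod q).val : ℤ) * ((v : ZMod q).val : ℤ) + 1) := by
      rw [← ZMod.intCast_zmod_eq_zero_iff_dvd]
      push_cast
      rw [ZMod.natCast_zmod_val, ZMod.natCast_zmod_val]
      have h3 : (N : ZMod q) = (n0 : ZMod q) := by simp [n0]
      rw [h3, ← Units.val_mul, ← Units.val_mul]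
      have h4 : n0 * u * v = -1 := by
        rw [hv, mul_inv_rev]
        rw [show (-n0 : (ZMod q)ˣ)⁻¹ = -(n0⁻¹) from inv_neg ..]
        rw [mul_neg, mul_neg]
        group
      rw [h4]
      simp
    obtain ⟨d, hd⟩ := hdvd
    rw [f_pt_flip f ε hf ((u : ZMod q).val : ℤ) ((v : ZMod q).val : ℤ) d (by linarith) t ht h1 h2]
    have h5 : χ (u : ZMod q) = χ ((-n0 : (ZMod q)ˣ) : ZMod q) * χ (v : ZMod q) := by
      have h5' : χ⁻¹ (u : ZMod q) = χ ((-n0 : (ZMod q)ˣ) : ZMod q) * χ (v : ZMod q) := by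
        rw [← map_mul, ← Units.val_mul, MulChar.inv_apply_eq_inv']
        have h6 : -n0 * v = u⁻¹ := by
          rw [hv, mul_inv_rev]
          rw [mul_comm u⁻¹, mul_inv_cancel_left]
        rw [h6]
        apply inv_eq_of_mul_eq_one_left
        rw [← map_mul, ← Units.val_mul, inv_mul_cancel, Units.val_one, map_one]
      rwa [hinv] at h5'
    rw [h5]
    ring
  rw [key] at s1
  set S2 := (∑ u : (ZMod q)ˣ, χ (u : ZMod q) *
        f (pt ((((u : ZMod q).val : ℤ) : ℝ) / q) ((t / Real.sqrt N) / q) h2)) with hS2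
  have r1 : HasSum (fun n : ℕ => χ (n : ZMod q) * (qExpansion 1 f).coeff n *
      (Real.exp (-(2 * Real.pi * n / (Real.sqrt N * q)) / t) : ℂ))
      (g⁻¹ * ((ε : ℂ) * (t : ℂ) ^ k * χ ((-n0 : (ZMod q)ˣ) : ZMod q) * S2)) := by
    have := s1.mul_left g⁻¹
    refine HasSum.congr_fun' this (fun n => ?_)
    rw [inv_mul_cancel_left₀ hg0, hinv]
    congr 4
    field_simp
  have r2 : HasSum (fun n : ℕ => χ (n : ZMod q) * (qExpansion 1 f).coeff n *
      (Real.exp (-(2 * Real.pi * n / (Real.sqrt N * q)) * t) : ℂ)) (g⁻¹ * S2) := by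
    have := s2.mul_left g⁻¹
    refine HasSum.congr_fun' this (fun n => ?_)
    rw [inv_mul_cancel_left₀ hg0, hinv]
    congr 4
    field_simp
  rw [r1.tsum_eq, r2.tsum_eq]
  have h9 : ((-n0 : (ZMod q)ˣ) : ZMod q) = -(N : ZMod q) := by simp [n0]
  rw [h9]
  ring

/-- modularity at the points `(u + i y)/q` when the level divides `q` -/
theorem f_pt_flip' {N : ℕ} [NeZero N] {k : ℤ}
    (f : CuspForm (Gamma0 N : Subgroup (GL (Fin 2) ℝ)) k)
    {q : ℕ} [NeZero q] (hNq : N ∣ q) (u v d : ℤ) (hd : q * d - u * v = 1) (t : ℝ) (ht : 0 < t)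
    (h1 : 0 < (1 / t) / q) (h2 : 0 < t / q) :
    f (pt ((u : ℝ) / q) ((1 / t) / q) h1) =
      (Complex.I * (t : ℂ)) ^ k * f (pt ((v : ℝ) / q) (t / q) h2) := by
  have hq : (q : ℂ) ≠ 0 := Nat.cast_ne_zero.2 (NeZero.ne q)
  let γ : SL(2, ℤ) := ⟨!![u, -d; (q : ℤ), -v], by
    rw [Matrix.det_fin_two_of]; linarith⟩
  have hγ : γ ∈ Gamma0 N := by
    rw [Gamma0_mem]
    obtain ⟨r, hr⟩ := hNq
    simp [γ, hr]
  set z := pt ((u : ℝ) / q) ((1 / t) / q) h1 with hz
  set z' := pt ((v : ℝ) / q) (t / q) h2 with hz'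
  have e1 := SlashInvariantForm.slash_action_eqn_SL'' f hγ z'
  have htc : (t : ℂ) ≠ 0 := Complex.ofReal_ne_zero.2 ht.ne'
  have hdc : (q : ℂ) * (d : ℂ) - (u : ℂ) * (v : ℂ) = 1 := by exact_mod_cast hd
  have hzc : (z : ℂ) = ((u : ℂ) + (1 / (t : ℂ)) * Complex.I) / q := by
    rw [hz, pt_coe]
    push_cast
    ring
  have hzc' : (z' : ℂ) = ((v : ℂ) + (t : ℂ) * Complex.I) / q := by
    rw [hz', pt_coe]
    push_cast
    ring
  have hD : denom (γ : GL (Fin 2) ℝ) z' = Complex.I * (t : ℂ) := by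
    rw [ModularGroup.denom_apply]
    simp only [γ]
    rw [hzc']
    simp
    field_simp
    ring
  have hnum : num (γ : GL (Fin 2) ℝ) z' = (u : ℂ) * z' - d := by
    have h00 : (γ 0 0 : ℤ) = u := rfl
    have h01 : (γ 0 1 : ℤ) = -d := rfl
    simp only [num, Matrix.SpecialLinearGroup.toGL, Matrix.SpecialLinearGroup.map_apply_coe,
      RingHom.mapMatrix_apply, Matrix.map_apply]
    simp [h00, h01]
    ring
  have hD0 : denom (γ : GL (Fin 2) ℝ) z' ≠ 0 := denom_ne_zero _ _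
  have hact : ((γ • z' : ℍ) : ℂ) = num (γ : GL (Fin 2) ℝ) z' / denom (γ : GL (Fin 2) ℝ) z' := by
    rw [ModularGroup.sl_moeb]
    exact coe_smul_of_det_pos (by simp) z'
  have hzz : γ • z' = z := by
    apply UpperHalfPlane.ext
    rw [hact, hnum, hD, hzc', hzc]
    have hI : Complex.I ≠ 0 := Complex.I_ne_zero
    have hI2 : Complex.I ^ 2 = -1 := Complex.I_sq
    field_simp
    linear_combination (-1 : ℂ) * hdc - hI2
  rw [hzz] at e1
  rw [e1, hD]

/-- the relation, conductor divisible by the level -/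
theorem theta_dvd {N : ℕ} [NeZero N] {k : ℤ}
    (f : CuspForm (Gamma0 N : Subgroup (GL (Fin 2) ℝ)) k)
    (q : ℕ) [NeZero q] (χ : DirichletCharacter ℂ q) (hχ : χ.IsPrimitive) (h2 : χ ^ 2 = 1)
    (hNq : N ∣ q) (t : ℝ) (ht : 0 < t) :
    ∑' n : ℕ, χ (n : ZMod q) * (qExpansion 1 f).coeff n *
      (Real.exp (-(2 * Real.pi * n / q) / t) : ℂ) =
    (Complex.I ^ k * χ (-1)) * (t : ℂ) ^ k *
      ∑' n : ℕ, χ (n : ZMod q) * (qExpansion 1 f).coeff n *
      (Real.exp (-(2 * Real.pi * n / q) * t) : ℂ) := by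
  have hq : (0 : ℝ) < q := Nat.cast_pos.2 (Nat.pos_of_ne_zero (NeZero.ne q))
  have hinv := real_inv χ h2
  set g := gaussSum χ (stdAddChar (N := q)) with hg
  have hg0 : g ≠ 0 := gauss_ne_zero χ hχ
  have h1 : 0 < (1 / t) / q := by positivity
  have h2 : 0 < t / q := by positivity
  have s1 := hasSum_twist f χ hχ (1 / t) h1
  have s2 := hasSum_twist f χ hχ t h2
  rw [← hg] at s1
  rw [← hg] at s2
  have key : (∑ u : (ZMod q)ˣ, χ (u : ZMod q) *
        f (pt ((((u : ZMod q).val : ℤ) : ℝ) / q) ((1 / t) / q) h1)) =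
      (Complex.I * (t : ℂ)) ^ k * χ (-1) *
      (∑ u : (ZMod q)ˣ, χ (u : ZMod q) *
        f (pt ((((u : ZMod q).val : ℤ) : ℝ) / q) (t / q) h2)) := by
    rw [← Equiv.sum_comp ((Equiv.mulLeft (-1)).trans (Equiv.inv (ZMod q)ˣ))
      (fun u : (ZMod q)ˣ => χ (u : ZMod q) *
        f (pt ((((u : ZMod q).val : ℤ) : ℝ) / q) (t / q) h2)), Finset.mul_sum]
    apply Finset.sum_congr rfl
    intro u _
    simp only [Equiv.trans_apply, Equiv.coe_mulLeft, Equiv.inv_apply]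
    set v : (ZMod q)ˣ := (-1 * u)⁻¹ with hv
    have huv : u * v = -1 := by
      rw [hv, neg_one_mul, show (-u : (ZMod q)ˣ)⁻¹ = -(u⁻¹) from inv_neg .., mul_neg,
        mul_inv_cancel]
    have hdvd : (q : ℤ) ∣ (((u : ZMod q).val : ℤ) * ((v : ZMod q).val : ℤ) + 1) := by
      rw [← ZMod.intCast_zmod_eq_zero_iff_dvd]
      push_cast
      rw [ZMod.natCast_zmod_val, ZMod.natCast_zmod_val]
      rw [← Units.val_mul, huv]
      simp
    obtain ⟨d, hd⟩ := hdvd
    rw [f_pt_flip' f hNq ((u : ZMod q).val : ℤ) ((v : ZMod q).val : ℤ) d (by linarith) t ht h1 h2]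
    have h5 : χ (u : ZMod q) = χ (-1) * χ (v : ZMod q) := by
      have h5' : χ⁻¹ (u : ZMod q) = χ (-1) * χ (v : ZMod q) := by
        rw [← map_mul, MulChar.inv_apply_eq_inv']
        apply inv_eq_of_mul_eq_one_left
        rw [← map_mul]
        have : (-1 * (v : ZMod q)) * (u : ZMod q) = 1 := by
          have h6 := congrArg (fun x : (ZMod q)ˣ => (x : ZMod q)) huv
          simp only [Units.val_mul, Units.val_neg, Units.val_one] at h6
          linear_combination (-1 : ZMod q) * h6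
        rw [this, map_one]
      rwa [hinv] at h5'
    rw [h5]
    ring
  rw [key] at s1
  set S2 := (∑ u : (ZMod q)ˣ, χ (u : ZMod q) *
        f (pt ((((u : ZMod q).val : ℤ) : ℝ) / q) (t / q) h2)) with hS2
  have r1 : HasSum (fun n : ℕ => χ (n : ZMod q) * (qExpansion 1 f).coeff n *
      (Real.exp (-(2 * Real.pi * n / q) / t) : ℂ))
      (g⁻¹ * ((Complex.I * (t : ℂ)) ^ k * χ (-1) * S2)) := by
    have := s1.mul_left g⁻¹
    refine HasSum.congr_fun' this (fun n => ?_)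
    rw [inv_mul_cancel_left₀ hg0, hinv]
    congr 4
    field_simp
  have r2 : HasSum (fun n : ℕ => χ (n : ZMod q) * (qExpansion 1 f).coeff n *
      (Real.exp (-(2 * Real.pi * n / q) * t) : ℂ)) (g⁻¹ * S2) := by
    have := s2.mul_left g⁻¹
    refine HasSum.congr_fun' this (fun n => ?_)
    rw [inv_mul_cancel_left₀ hg0, hinv]
    congr 4
    field_simp
  rw [r1.tsum_eq, r2.tsum_eq, mul_zpow]
  ring

end Pool.Agent.K1H79.RN
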