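import Pool.Agent.W388.TW.Parts
import Pool.Agent.K1H79.RN.Mel
import Pool.Agent.K1H79.RN.Theta

/-!
# The twisted `L`-functions of a newform and their central values when the sign is `-1`
-/

set_option autoImplicit false

open Complex Filter Topology Set UpperHalfPlane MatrixGroups CongruenceSubgroup ZMod

namespace Pool.Agent.K1H79.RN

open W388

/-- the Euler factors -/
noncomputable def fac {N : ℕ} {k : ℤ} (f : CuspForm (Gamma0 N : Subgroup (GL (Fin 2) ℝ)) k)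
    {q : ℕ} (χ : DirichletCharacter ℂ q) (s : ℂ) (p : Nat.Primes) : ℂ :=
  (1 - χ ((p : ℕ) : ZMod q) * (lamf f p : ℂ) * ((p : ℕ) : ℂ) ^ (-s) +
        (if (p : ℕ) ∣ N then 0 else χ ((p : ℕ) : ZMod q) ^ 2 * ((p : ℕ) : ℂ) ^ (-2 * s)))⁻¹

theorem exists_center {N : ℕ} [NeZero N] {k : ℤ} (hk : 1 ≤ k)
    {f : CuspForm (Gamma0 N : Subgroup (GL (Fin 2) ℝ)) k} {ε : ℝ} (hf : IsNewf N k f ε)
    (q : ℕ) [NeZero q] (χ : DirichletCharacter ℂ q) (hχ : χ.IsPrimitive) (h2 : χ ^ 2 = 1) (w : ℂ)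
    (hw : (Nat.Coprime q N ∧ w = (ε : ℂ) * χ (-(N : ZMod q))) ∨
      (N ∣ q ∧ w = Complex.I ^ k * χ (-1))) :
    ∃ F : ℂ → ℂ, Differentiable ℂ F ∧
      (∀ s : ℂ, 1 < s.re → HasProd (fac f χ s) (F s)) ∧ (w = -1 → F (1 / 2) = 0) := by
  have hN : 0 < N := Nat.pos_of_ne_zero (NeZero.ne N)
  have hH := heckeSeq_lamf hf
  have hR := p_rs N k hk f ε hf
  obtain ⟨A1, hA1, d1, d2, d3⟩ := p_dir N hN (lamf f) hH hR
  have hsum : ∀ (s : ℂ), 1 < s.re →
      Summable (fun n : ℕ => ‖χ (n : ZMod q) * (lamf f n : ℂ) * (n : ℂ) ^ (-s)‖) := by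
    intro s hs
    exact (d3 q χ (fun s => ∑' n : ℕ, χ (n : ZMod q) * (lamf f n : ℂ) * (n : ℂ) ^ (-s))
      (fun _ _ => rfl)).1 s hs
  obtain ⟨C, hC⟩ := coeff_bound f hk
  have hk0 : (0 : ℝ) ≤ (k : ℝ) / 2 := by
    have : (1 : ℝ) ≤ k := by exact_mod_cast hk
    linarith
  have hbd : ∀ n : ℕ, 1 ≤ n → ‖χ (n : ZMod q) * (qExpansion 1 f).coeff n‖ ≤
      C * (n : ℝ) ^ ((k : ℝ) / 2) := by
    intro n hn
    rw [norm_mul]
    calc ‖χ (n : ZMod q)‖ * ‖(qExpansion 1 f).coeff n‖ ≤ 1 * ‖(qExpansion 1 f).coeff n‖ :=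
          mul_le_mul_of_nonneg_right (χ.norm_le_one _) (norm_nonneg _)
      _ ≤ _ := by rw [one_mul]; exact hC n hn
  have hb0 : χ ((0 : ℕ) : ZMod q) * (qExpansion 1 f).coeff 0 = 0 := by
    rw [coeff_zero f, mul_zero]
  have hmain : ∃ F : ℂ → ℂ, Differentiable ℂ F ∧ (∀ s : ℂ, (k : ℝ) / 2 + 2 < s.re →
      F s = ∑' n : ℕ, χ (n : ZMod q) * (qExpansion 1 f).coeff n *
        (n : ℂ) ^ (-(s + ((k : ℂ) - 1) / 2))) ∧ (w = -1 → F (1 / 2) = 0) := by
    rcases hw with ⟨hco, hw⟩ | ⟨hdvd, hw⟩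
    · have hNR : (0 : ℝ) < N := Nat.cast_pos.2 hN
      have hqR : (0 : ℝ) < q := Nat.cast_pos.2 (Nat.pos_of_ne_zero (NeZero.ne q))
      have hR0 : 0 < Real.sqrt N * q := mul_pos (Real.sqrt_pos.2 hNR) hqR
      have hu : IsUnit (-(N : ZMod q)) := by
        rw [IsUnit.neg_iff]
        exact (ZMod.isUnit_iff_coprime N q).2 hco.symm
      have hw0 : w ≠ 0 := by
        rw [hw]
        refine mul_ne_zero ?_ ?_
        · rcases hf.sign with h | h <;> rw [h] <;> norm_num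
        · exact (hu.map χ).ne_zero
      refine mellin_sign k hk (Real.sqrt N * q) hR0
        (fun n => χ (n : ZMod q) * (qExpansion 1 f).coeff n) ((k : ℝ) / 2) C hb0 hk0 hbd w hw0 ?_
      intro t ht
      rw [hw]
      exact theta_coprime f ε hf q χ hχ h2 hco t ht
    · have hqR : (0 : ℝ) < q := Nat.cast_pos.2 (Nat.pos_of_ne_zero (NeZero.ne q))
      have hw0 : w ≠ 0 := by
        rw [hw]
        refine mul_ne_zero (zpow_ne_zero _ Complex.I_ne_zero) ?_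
        exact ((isUnit_one.neg).map χ).ne_zero
      refine mellin_sign k hk q hqR
        (fun n => χ (n : ZMod q) * (qExpansion 1 f).coeff n) ((k : ℝ) / 2) C hb0 hk0 hbd w hw0 ?_
      intro t ht
      rw [hw]
      exact theta_dvd f q χ hχ h2 hdvd t ht
  obtain ⟨F, hF, hFs, hF0⟩ := hmain
  have hser : ∀ s : ℂ, 1 < s.re →
      F s = ∑' n : ℕ, χ (n : ZMod q) * (lamf f n : ℂ) * (n : ℂ) ^ (-s) := by
    intro s hs
    refine ext_series F hF (fun n => χ (n : ZMod q) * (lamf f n : ℂ)) ?_ hsum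
      ((k : ℝ) / 2 + 2) (fun s hs => ?_) s hs
    · rw [(heckeSeq_lamf hf).zero]
      simp
    · rw [hFs s hs]
      refine tsum_congr fun n => ?_
      rcases Nat.eq_zero_or_pos n with h0 | h0
      · subst h0
        rw [coeff_zero f, (heckeSeq_lamf hf).zero]
        simp
      · have hn0 : (n : ℂ) ≠ 0 := by exact_mod_cast h0.ne'
        rw [lamf_eq hf n h0.ne']
        have : (n : ℂ) ^ (-(s + ((k : ℂ) - 1) / 2)) =
            (n : ℂ) ^ (-s) * (n : ℂ) ^ (-(((k : ℂ) - 1) / 2)) := by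
          rw [← Complex.cpow_add _ _ hn0]
          congr 1; ring
        rw [this, Complex.cpow_neg (n : ℂ) (((k : ℂ) - 1) / 2)]
        have h1 : (n : ℂ) ^ (((k : ℂ) - 1) / 2) ≠ 0 := by
          rw [Complex.cpow_def_of_ne_zero hn0]
          exact Complex.exp_ne_zero _
        field_simp
  exact ⟨F, hF, (d3 q χ F hser).2.2.2.2.2, hF0⟩

/-- uniqueness of the entire function with a given Euler product for `Re s > 1` -/
theorem unique_of_prod {F G : ℂ → ℂ} (hF : Differentiable ℂ F) (hG : Differentiable ℂ G)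
    {u : ℂ → Nat.Primes → ℂ}
    (h1 : ∀ s : ℂ, 1 < s.re → HasProd (u s) (F s)) (h2 : ∀ s : ℂ, 1 < s.re → HasProd (u s) (G s)) :
    F = G := by
  have hF' : AnalyticOnNhd ℂ F univ := fun s _ => hF.analyticAt s
  have hG' : AnalyticOnNhd ℂ G univ := fun s _ => hG.analyticAt s
  have h := hF'.eqOn_of_preconnected_of_eventuallyEq hG' isPreconnected_univ (mem_univ (2 : ℂ)) (by
    have ho : IsOpen {s : ℂ | 1 < s.re} := isOpen_lt continuous_const Complex.continuous_re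
    filter_upwards [ho.mem_nhds (show (2 : ℂ) ∈ {s : ℂ | 1 < s.re} by simp)] with s hs
    exact (h1 s hs).unique (h2 s hs))
  funext s
  exact h (mem_univ s)

end Pool.Agent.K1H79.RN
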