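import Pool.Agent.K1H79.RN.Center

/-!
# The product of the signs of `f ⊗ ψ` and `f ⊗ χψ`
-/

set_option autoImplicit false

open Complex UpperHalfPlane MatrixGroups CongruenceSubgroup ZMod

namespace Pool.Agent.K1H79.RN

open W388

/-- a primitive character modulo `a` which agrees with a character modulo `b` at the integers prime
to `ab`: then `a ∣ b` -/
theorem rel_dvd {a b : ℕ} [NeZero a] [NeZero b] (α : DirichletCharacter ℂ a)
    (β : DirichletCharacter ℂ b) (hα : α.IsPrimitive)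
    (h : ∀ n : ℕ, n.Coprime (a * b) → α (n : ZMod a) = β (n : ZMod b)) : a ∣ b := by
  have ha : 0 < a := Nat.pos_of_ne_zero (NeZero.ne a)
  set d := Nat.gcd a b with hd
  have hda : d ∣ a := Nat.gcd_dvd_left a b
  have hfac : α.FactorsThrough d := by
    rw [DirichletCharacter.factorsThrough_iff_ker_unitsMap hda]
    intro u hu
    rw [MonoidHom.mem_ker] at hu ⊢
    set m : ℕ := (u : ZMod a).val with hm
    have hmu : (m : ZMod a) = (u : ZMod a) := by rw [hm]; exact ZMod.natCast_zmod_val _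
    have h1 : m ≡ 1 [MOD d] := by
      rw [← ZMod.natCast_eq_natCast_iff]
      have h2 := congrArg (fun x : (ZMod d)ˣ => (x : ZMod d)) hu
      simp only [ZMod.unitsMap_def, Units.coe_map, MonoidHom.coe_coe, Units.val_one] at h2
      rw [← hmu] at h2
      rw [Nat.cast_one, ← h2]
      exact (map_natCast (ZMod.castHom hda (ZMod d)) m).symm
    obtain ⟨n, hn1, hn2⟩ := Nat.chineseRemainder' h1
    have hna : (n : ZMod a) = (u : ZMod a) := by
      rw [← hmu]; exact (ZMod.natCast_eq_natCast_iff _ _ _).2 hn1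
    have hnb : (n : ZMod b) = 1 := by
      have := (ZMod.natCast_eq_natCast_iff n 1 b).2 hn2
      rwa [Nat.cast_one] at this
    have hco : n.Coprime (a * b) := by
      refine Nat.Coprime.mul_right ?_ ?_
      · rw [← ZMod.isUnit_iff_coprime, hna]; exact u.isUnit
      · rw [← ZMod.isUnit_iff_coprime, hnb]; exact isUnit_one
    have h3 := h n hco
    rw [hna, hnb, map_one] at h3
    apply Units.ext
    rw [MulChar.coe_toUnitHom, h3, Units.val_one]
  have hle : α.conductor ≤ d := Nat.sInf_le hfac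
  rw [hα] at hle
  have : d = a := le_antisymm (Nat.le_of_dvd ha hda) hle
  rw [← this]
  exact Nat.gcd_dvd_right a b

theorem sq_val {q : ℕ} (χ : DirichletCharacter ℂ q) (h2 : χ ^ 2 = 1) {x : ZMod q}
    (hx : IsUnit x) : χ x * χ x = 1 := by
  have h1 : (χ ^ 2) x = 1 := by rw [h2]; exact MulChar.one_apply hx
  rwa [MulChar.pow_apply' _ two_ne_zero, sq] at h1

theorem pm_val {q : ℕ} (χ : DirichletCharacter ℂ q) (h2 : χ ^ 2 = 1) {x : ZMod q}
    (hx : IsUnit x) : χ x = 1 ∨ χ x = -1 :=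
  mul_self_eq_one_iff.1 (sq_val χ h2 hx)

/-- the hypotheses on `χ`, `ψ` and the primitive character `φ` inducing `χψ` -/
structure Rel {q q₁ q₂ : ℕ} (χ : DirichletCharacter ℂ q) (ψ : DirichletCharacter ℂ q₁)
    (φ : DirichletCharacter ℂ q₂) : Prop where
  χ2 : χ ^ 2 = 1
  ψ2 : ψ ^ 2 = 1
  ψp : ψ.IsPrimitive
  φp : φ.IsPrimitive
  rel : ∀ n : ℕ, n.Coprime (q * q₁) → φ (n : ZMod q₂) = χ (n : ZMod q) * ψ (n : ZMod q₁)

section

variable {q q₁ q₂ : ℕ} [NeZero q] [NeZero q₁] [NeZero q₂] {χ : DirichletCharacter ℂ q}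
  {ψ : DirichletCharacter ℂ q₁} {φ : DirichletCharacter ℂ q₂}

theorem val_level {q m : ℕ} (χ : DirichletCharacter ℂ q) (hm : q ∣ m) {n : ℕ}
    (hn : n.Coprime m) : DirichletCharacter.changeLevel hm χ (n : ZMod m) = χ (n : ZMod q) := by
  have h := DirichletCharacter.changeLevel_eq_cast_of_dvd' χ hm (a := (n : ℤ))
    (Nat.isCoprime_iff_coprime.2 hn)
  simpa using h

omit [NeZero q₂] in
theorem Rel.mul_right_ne (_h : Rel χ ψ φ) : q * q₁ ≠ 0 := mul_ne_zero (NeZero.ne q) (NeZero.ne q₁)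

theorem Rel.dvd (h : Rel χ ψ φ) : q₂ ∣ q * q₁ := by
  have : NeZero (q * q₁) := ⟨mul_ne_zero (NeZero.ne q) (NeZero.ne q₁)⟩
  refine rel_dvd φ (DirichletCharacter.changeLevel (Dvd.intro q₁ rfl) χ *
    DirichletCharacter.changeLevel (Dvd.intro_left q rfl) ψ) h.φp fun n hn => ?_
  have hn' : n.Coprime (q * q₁) := Nat.Coprime.coprime_mul_left_right hn
  rw [h.rel n hn', MulChar.mul_apply, val_level χ _ hn', val_level ψ _ hn']

/-- the relation in the other direction -/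
theorem Rel.rel' (h : Rel χ ψ φ) (n : ℕ) (hn : n.Coprime (q * q₁)) :
    ψ (n : ZMod q₁) = χ (n : ZMod q) * φ (n : ZMod q₂) := by
  have hu : IsUnit (n : ZMod q) :=
    (ZMod.isUnit_iff_coprime _ _).2 (Nat.Coprime.coprime_mul_right_right hn)
  rw [h.rel n hn, ← mul_assoc, sq_val χ h.χ2 hu, one_mul]

theorem Rel.dvd' (h : Rel χ ψ φ) : q₁ ∣ q * q₂ := by
  have : NeZero (q * q₂) := ⟨mul_ne_zero (NeZero.ne q) (NeZero.ne q₂)⟩
  refine rel_dvd ψ (DirichletCharacter.changeLevel (Dvd.intro q₂ rfl) χ *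
    DirichletCharacter.changeLevel (Dvd.intro_left q rfl) φ) h.ψp fun n hn => ?_
  have h1 : n.Coprime (q * q₂) := Nat.Coprime.coprime_mul_left_right hn
  have h2 : n.Coprime q₁ := Nat.Coprime.coprime_mul_right_right hn
  have h3 : n.Coprime (q * q₁) := Nat.Coprime.mul_right (Nat.Coprime.coprime_mul_right_right h1) h2
  rw [h.rel' n h3, MulChar.mul_apply, val_level χ _ h1, val_level φ _ h1]

/-- integers `-m` with `m` prime to the moduli -/
theorem Rel.neg (h : Rel χ ψ φ) (m : ℕ) (hm : m.Coprime (q * q₁)) :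
    φ (-(m : ZMod q₂)) = χ (-(m : ZMod q)) * ψ (-(m : ZMod q₁)) := by
  set M := q * q₁ with hM
  have hM0 : 0 < M := Nat.pos_of_ne_zero (mul_ne_zero (NeZero.ne q) (NeZero.ne q₁))
  have hco : (m * (M - 1)).Coprime M := by
    refine Nat.Coprime.mul_left hm ?_
    have : Nat.Coprime (M - 1) (M - 1 + 1) := by simp
    rwa [Nat.sub_add_cancel hM0] at this
  have hval : ∀ r : ℕ, r ∣ M → ((m * (M - 1) : ℕ) : ZMod r) = -(m : ZMod r) := by
    intro r hr
    rw [Nat.cast_mul, Nat.cast_sub hM0, (ZMod.natCast_eq_zero_iff M r).2 hr]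
    simp
  have h1 := h.rel _ hco
  rwa [hval q₂ h.dvd, hval q (Dvd.intro q₁ rfl), hval q₁ (Dvd.intro_left q rfl)] at h1

theorem Rel.φ2 (h : Rel χ ψ φ) : φ ^ 2 = 1 := by
  apply MulChar.ext
  intro u
  rw [MulChar.pow_apply_coe, MulChar.one_apply_coe]
  have hM0 : NeZero (q * q₁) := ⟨mul_ne_zero (NeZero.ne q) (NeZero.ne q₁)⟩
  obtain ⟨v, hv⟩ := ZMod.unitsMap_surjective h.dvd u
  have hn : ((v : ZMod (q * q₁)).val).Coprime (q * q₁) := ZMod.val_coe_unit_coprime v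
  have h1 := h.rel _ hn
  have h2 : (((v : ZMod (q * q₁)).val : ℕ) : ZMod q₂) = (u : ZMod q₂) := by
    rw [← hv, ZMod.unitsMap_def, Units.coe_map]
    simp only [MonoidHom.coe_coe, ZMod.castHom_apply]
    rw [ZMod.natCast_val]
  rw [h2] at h1
  have e1 := sq_val χ h.χ2 ((ZMod.isUnit_iff_coprime _ _).2 (Nat.Coprime.coprime_mul_right_right hn))
  have e2 := sq_val ψ h.ψ2 ((ZMod.isUnit_iff_coprime _ _).2 (Nat.Coprime.coprime_mul_left_right hn))
  rw [h1]
  linear_combination (ψ (((v : ZMod (q * q₁)).val : ℕ) : ZMod q₁) *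
    ψ (((v : ZMod (q * q₁)).val : ℕ) : ZMod q₁)) * e1 + e2

end

theorem pick {x F0 G0 : ℂ} (hx : x = 1 ∨ x = -1) (hF : x = -1 → F0 = 0)
    (hG : -x = -1 → G0 = 0) : F0 * G0 = 0 := by
  rcases hx with h | h
  · rw [hG (by rw [h]), mul_zero]
  · rw [hF h, zero_mul]

theorem pm_mul {x y : ℂ} (hx : x = 1 ∨ x = -1) (hy : y = 1 ∨ y = -1) : x * y = 1 ∨ x * y = -1 := by
  rcases hx with h | h <;> rcases hy with h' | h' <;> rw [h, h'] <;> norm_num

/-- `f` of level one or of prime level, even weight; `χ` odd, `χ(N) = 1`: one of the two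
central values vanishes -/
theorem product_zero {N : ℕ} [NeZero N] (hN : N = 1 ∨ N.Prime) {k : ℤ} (hk : 1 ≤ k)
    (hke : Even k) {f : CuspForm (Gamma0 N : Subgroup (GL (Fin 2) ℝ)) k} {ε : ℝ}
    (hf : IsNewf N k f ε) {q q₁ q₂ : ℕ} [NeZero q] [NeZero q₁] [NeZero q₂]
    {χ : DirichletCharacter ℂ q} {ψ : DirichletCharacter ℂ q₁} {φ : DirichletCharacter ℂ q₂}
    (h : Rel χ ψ φ) (hodd : χ (-1) = -1) (hsplit : χ (N : ZMod q) = 1) :
    ∃ F G : ℂ → ℂ, (Differentiable ℂ F ∧ ∀ s : ℂ, 1 < s.re → HasProd (fac f ψ s) (F s)) ∧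
      (Differentiable ℂ G ∧ ∀ s : ℂ, 1 < s.re → HasProd (fac f φ s) (G s)) ∧
      F (1 / 2) * G (1 / 2) = 0 := by
  have hNq : Nat.Coprime N q := by
    rw [← ZMod.isUnit_iff_coprime]
    by_contra hc
    rw [MulChar.map_nonunit χ hc] at hsplit
    exact zero_ne_one hsplit
  have hcase : (Nat.Coprime q₁ N ∧ Nat.Coprime q₂ N) ∨ (N ∣ q₁ ∧ N ∣ q₂) := by
    rcases hN with h1 | hp
    · left; rw [h1]; simp
    · by_cases h1 : N ∣ q₁
      · right
        refine ⟨h1, ?_⟩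
        have h2 : N ∣ q * q₂ := h1.trans h.dvd'
        exact (Nat.Coprime.dvd_mul_left hNq).1 h2
      · left
        have c1 : Nat.Coprime N q₁ := (Nat.Prime.coprime_iff_not_dvd hp).2 h1
        refine ⟨c1.symm, ?_⟩
        have c2 : Nat.Coprime N (q * q₁) := Nat.Coprime.mul_right hNq c1
        exact (Nat.Coprime.coprime_dvd_right h.dvd c2).symm
  rcases hcase with ⟨c1, c2⟩ | ⟨d1, d2⟩
  · obtain ⟨F, hF, hFp, hF0⟩ := exists_center hk hf q₁ ψ h.ψp h.ψ2 _ (Or.inl ⟨c1, rfl⟩)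
    obtain ⟨G, hG, hGp, hG0⟩ := exists_center hk hf q₂ φ h.φp h.φ2 _ (Or.inl ⟨c2, rfl⟩)
    refine ⟨F, G, ⟨hF, hFp⟩, ⟨hG, hGp⟩, ?_⟩
    have hm : N.Coprime (q * q₁) := Nat.Coprime.mul_right hNq c1.symm
    have hneg := h.neg N hm
    have hχN : χ (-(N : ZMod q)) = -1 := by
      rw [← neg_one_mul, map_mul, hodd, hsplit, mul_one]
    rw [hχN, neg_one_mul] at hneg
    have hu : IsUnit (-(N : ZMod q₁)) := by
      rw [IsUnit.neg_iff]
      exact (ZMod.isUnit_iff_coprime N q₁).2 c1.symm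
    rw [hneg, mul_neg] at hG0
    refine pick (pm_mul ?_ (pm_val ψ h.ψ2 hu)) hF0 hG0
    rcases hf.sign with e | e <;> rw [e] <;> norm_num
  · obtain ⟨F, hF, hFp, hF0⟩ := exists_center hk hf q₁ ψ h.ψp h.ψ2 _ (Or.inr ⟨d1, rfl⟩)
    obtain ⟨G, hG, hGp, hG0⟩ := exists_center hk hf q₂ φ h.φp h.φ2 _ (Or.inr ⟨d2, rfl⟩)
    refine ⟨F, G, ⟨hF, hFp⟩, ⟨hG, hGp⟩, ?_⟩
    have hneg := h.neg 1 (Nat.coprime_one_left _)
    rw [Nat.cast_one, Nat.cast_one, Nat.cast_one, hodd, neg_one_mul] at hneg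
    have hI : Complex.I ^ k = 1 ∨ Complex.I ^ k = -1 := by
      obtain ⟨j, rfl⟩ := hke
      have e : Complex.I ^ (j + j) = (-1) ^ j := by
        rw [zpow_add₀ Complex.I_ne_zero, ← mul_zpow, Complex.I_mul_I]
      rw [e]
      rcases Int.even_or_odd j with hj | hj
      · left; exact hj.neg_one_zpow
      · right; exact hj.neg_one_zpow
    have hu : IsUnit (-1 : ZMod q₁) := isUnit_one.neg
    rw [hneg, mul_neg] at hG0
    exact pick (pm_mul hI (pm_val ψ h.ψ2 hu)) hF0 hG0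

end Pool.Agent.K1H79.RN
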